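import Pool.Agent.KDT.StmtsK

set_option autoImplicit false

/-!
# KDT, row MBN (helper3)
-/

namespace Pool.Agent.KDT.H3

open Pool.Agent.KDT

theorem ff_sig (S : ℝ) : ∃ σ : ℝ, FF S = σ * (1 - σ) ∧ 1 / 4 - FF (S + 1 / 2) = σ ^ 2 ∧
    ((∃ m : ℤ, S = m) → σ = 0) := by
  have h0 := Int.fract_nonneg S
  have h1 := Int.fract_lt_one S
  have h2 : S - Int.fract S = (⌊S⌋ : ℝ) := by
    have := Int.self_sub_fract S
    exact this
  by_cases hx : Int.fract S < 1 / 2
  · have e1 : Int.fract (S + 1 / 2) = Int.fract S + 1 / 2 := by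
      rw [Int.fract_eq_iff]
      refine ⟨by linarith, by linarith, ⌊S⌋, ?_⟩
      linarith
    refine ⟨Int.fract S, rfl, ?_, ?_⟩
    · unfold FF
      rw [e1]
      ring
    · rintro ⟨m, hm⟩
      rw [hm]
      exact Int.fract_intCast m
  · have e1 : Int.fract (S + 1 / 2) = Int.fract S - 1 / 2 := by
      rw [Int.fract_eq_iff]
      refine ⟨by linarith, by linarith, ⌊S⌋ + 1, ?_⟩
      push_cast
      linarith
    refine ⟨1 - Int.fract S, ?_, ?_, ?_⟩
    · unfold FF
      ring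
    · unfold FF
      rw [e1]
      ring
    · rintro ⟨m, hm⟩
      exfalso
      apply hx
      rw [hm, Int.fract_intCast]
      norm_num

theorem mbn : MbnStatement := by
  intro q L S r κ e hq hκ he hr
  obtain ⟨σ, h1, h2, h3⟩ := ff_sig S
  rw [h1, h2] at hr
  have hs : e 0 + e 1 + e 2 + e 3 = κ := by
    unfold Ex at he
    rw [Finset.mem_filter] at he
    exact he.2.1
  have hsR : (e 0 : ℝ) + e 1 + e 2 + e 3 = κ := by exact_mod_cast hs
  have hκR : (0 : ℝ) < κ := by exact_mod_cast hκ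
  have hJ : (jj e : ℝ) = e 0 + e 1 := by
    unfold jj
    push_cast
    rfl
  have hp : ∏ l, r l ^ e l ≤
      ∏ l, Real.exp (L + q * (if l ≤ 1 then - (σ * (1 - σ)) else σ ^ 2)) ^ e l := by
    apply Finset.prod_le_prod
    · intro l _
      exact pow_nonneg (hr l).1 _
    · intro l _
      exact pow_le_pow_left₀ (hr l).1 (hr l).2 _
  have hpe : ∏ l, Real.exp (L + q * (if l ≤ 1 then - (σ * (1 - σ)) else σ ^ 2)) ^ e l =
      Real.exp (κ * L + q * (κ * σ ^ 2 - (jj e : ℝ) * σ)) := by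
    rw [Fin.prod_univ_four]
    have i0 : ((0 : Fin 4) ≤ 1) = True := by simp
    have i1 : ((1 : Fin 4) ≤ 1) = True := by simp
    have i2 : ((2 : Fin 4) ≤ 1) = False := by
      rw [eq_iff_iff]
      decide
    have i3 : ((3 : Fin 4) ≤ 1) = False := by
      rw [eq_iff_iff]
      decide
    simp only [i0, i1, i2, i3, if_true, if_false]
    rw [← Real.exp_nat_mul, ← Real.exp_nat_mul, ← Real.exp_nat_mul, ← Real.exp_nat_mul,
      ← Real.exp_add, ← Real.exp_add, ← Real.exp_add, hJ, ← hsR]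
    congr 1
    ring
  rw [hpe] at hp
  refine ⟨hp.trans ?_, ?_⟩
  · apply Real.exp_le_exp.2
    have hq2 : - (jj e : ℝ) ^ 2 / (4 * κ) ≤ κ * σ ^ 2 - (jj e : ℝ) * σ := by
      rw [div_le_iff₀ (by positivity)]
      nlinarith [sq_nonneg (2 * κ * σ - (jj e : ℝ))]
    have := mul_le_mul_of_nonpos_left hq2 hq.le
    have e2 : q * (- (jj e : ℝ) ^ 2 / (4 * κ)) = - (q * ((jj e : ℝ) ^ 2 / (4 * κ))) := by ring
    rw [e2] at this
    linarith
  · intro hm
    rw [h3 hm] at hp
    refine hp.trans (le_of_eq ?_)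
    congr 1
    ring

end Pool.Agent.KDT.H3
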